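import Pool.Agent.Helper47.ER.Goals
import Mathlib

/-!
# Project ER, packet RED: the fixed points of a central element
-/

set_option autoImplicit false
set_option linter.unusedSectionVars false

namespace Pool.Agent.Helper26.ER.RED

open Pool.Agent.Helper98.EQ (SA Coc mono)
open Pool.Agent.Helper47.EP (Dat Hs Om)
open Pool.Agent.Helper47.ER (Sc)

/-! ### the combinatorial part -/

/-- the data: a cocycle and a central element -/
structure Ctx (p : ℕ) (A H : Type) [Group H] [MulAction H A] where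
  c : H → A → ZMod p
  hc : Coc c
  u : H
  hu : ∀ h, h * u = u * h

variable {p : ℕ} {A H : Type} [Group H] [MulAction H A]

theorem coc_one {c : H → A → ZMod p} (hc : Coc c) (a : A) : c 1 a = 0 := by
  have h1 := hc 1 1 a
  rw [mul_one, inv_one, one_smul] at h1
  exact left_eq_add.1 h1

namespace Ctx

variable (X : Ctx p A H)

/-- the cocycle is trivial on the stabiliser of `a` in the group generated by `u` -/
def Good (a : A) : Prop := ∀ z ∈ Subgroup.zpowers X.u, z • a = a → X.c z a = 0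

theorem central {z : H} (hz : z ∈ Subgroup.zpowers X.u) (h : H) : h * z = z * h := by
  obtain ⟨n, rfl⟩ := hz
  exact Commute.zpow_right (show Commute h X.u from X.hu h) n

theorem smul_comm' {z : H} (hz : z ∈ Subgroup.zpowers X.u) (h : H) (a : A) :
    h • z • a = z • h • a := by
  rw [← mul_smul, X.central hz h, mul_smul]

theorem good_smul (h : H) {a : A} (ha : X.Good a) : X.Good (h • a) := by
  intro z hz hza
  have h1 : z • a = a := by
    have h0 : h • z • a = h • a := by rw [X.smul_comm' hz, hza]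
    exact (smul_left_cancel_iff h).1 h0
  have h2 := ha z hz h1
  have e : z = h * (z * h⁻¹) := by
    rw [← mul_assoc, X.central hz h, mul_assoc, mul_inv_cancel, mul_one]
  have h3 : X.c (h * (z * h⁻¹)) (h • a) = X.c h (h • a) + X.c (z * h⁻¹) (h⁻¹ • h • a) :=
    X.hc _ _ _
  rw [inv_smul_smul] at h3
  have h4 : X.c (z * h⁻¹) a = X.c z a + X.c h⁻¹ (z⁻¹ • a) := X.hc _ _ _
  have h5 : z⁻¹ • a = a := by rw [inv_smul_eq_iff, h1]
  have h6 : X.c (h * h⁻¹) (h • a) = X.c h (h • a) + X.c h⁻¹ (h⁻¹ • h • a) := X.hc _ _ _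
  rw [mul_inv_cancel, coc_one X.hc, inv_smul_smul] at h6
  rw [e, h3, h4, h5, h2, zero_add, ← h6]

theorem good_iff (h : H) (a : A) : X.Good (h • a) ↔ X.Good a := by
  constructor
  · intro g
    have := X.good_smul h⁻¹ g
    rwa [inv_smul_smul] at this
  · exact X.good_smul h

/-- the good elements -/
def Bt : Type := {a : A // X.Good a}

instance [Finite A] : Finite X.Bt := by
  unfold Bt
  infer_instance

instance : MulAction H X.Bt where
  smul h b := ⟨h • b.1, X.good_smul h b.2⟩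
  one_smul b := Subtype.ext (one_smul H b.1)
  mul_smul h h' b := Subtype.ext (mul_smul h h' b.1)

theorem smul_val (h : H) (b : X.Bt) : (h • b).1 = h • b.1 := rfl

/-- the orbits of the group generated by `u` -/
def st : Setoid X.Bt where
  r a b := ∃ z ∈ Subgroup.zpowers X.u, z • a = b
  iseqv := by
    refine ⟨fun a => ⟨1, one_mem _, one_smul _ a⟩, ?_, ?_⟩
    · rintro a b ⟨z, hz, e⟩
      exact ⟨z⁻¹, inv_mem hz, by rw [← e, inv_smul_smul]⟩
    · rintro a b d ⟨z, hz, e⟩ ⟨z', hz', e'⟩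
      exact ⟨z' * z, mul_mem hz' hz, by rw [mul_smul, e, e']⟩

/-- the new set -/
def Qt : Type := Quotient X.st

instance [Finite A] : Finite X.Qt := by
  unfold Qt
  infer_instance

/-- the class of an element -/
def cl (b : X.Bt) : X.Qt := Quotient.mk X.st b

theorem cl_eq {a b : X.Bt} : X.cl a = X.cl b ↔ ∃ z ∈ Subgroup.zpowers X.u, z • a = b :=
  Quotient.eq (r := X.st)

instance : MulAction H X.Qt where
  smul h := Quotient.map (sa := X.st) (sb := X.st) (fun b => h • b) (by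
    rintro a b ⟨z, hz, e⟩
    refine ⟨z, hz, ?_⟩
    rw [← e]
    exact Subtype.ext (X.smul_comm' hz h a.1).symm)
  one_smul o := by
    induction o using Quotient.inductionOn with
    | h a =>
      show X.cl ((1 : H) • a) = X.cl a
      rw [one_smul]
  mul_smul h h' o := by
    induction o using Quotient.inductionOn with
    | h a =>
      show X.cl ((h * h') • a) = X.cl (h • h' • a)
      rw [mul_smul]

theorem smul_cl (h : H) (b : X.Bt) : h • X.cl b = X.cl (h • b) := rfl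

/-- representatives -/
noncomputable def s (o : X.Qt) : X.Bt := Quotient.out o

theorem cl_s (o : X.Qt) : X.cl (X.s o) = o := Quotient.out_eq o

theorem exz (b : X.Bt) : ∃ z ∈ Subgroup.zpowers X.u, z • X.s (X.cl b) = b :=
  X.cl_eq.1 (X.cl_s _)

/-- the element which moves the representative to `b` -/
noncomputable def zz (b : X.Bt) : H := (X.exz b).choose

theorem zz_mem (b : X.Bt) : X.zz b ∈ Subgroup.zpowers X.u := (X.exz b).choose_spec.1
theorem zz_smul (b : X.Bt) : X.zz b • X.s (X.cl b) = b := (X.exz b).choose_spec.2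

/-- the cocycle from the representative to `b` -/
noncomputable def q (b : X.Bt) : ZMod p := X.c (X.zz b) b.1

theorem q_eq (b : X.Bt) (z : H) (hz : z ∈ Subgroup.zpowers X.u) (e : z • X.s (X.cl b) = b) :
    X.c z b.1 = X.q b := by
  have h1 : X.c (X.zz b * ((X.zz b)⁻¹ * z)) b.1 =
      X.c (X.zz b) b.1 + X.c ((X.zz b)⁻¹ * z) ((X.zz b)⁻¹ • b.1) := X.hc _ _ _
  rw [mul_inv_cancel_left] at h1
  have h2 : (X.zz b)⁻¹ • b = X.s (X.cl b) := by
    rw [inv_smul_eq_iff]
    exact (X.zz_smul b).symm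
  have h3 : (X.zz b)⁻¹ • b.1 = (X.s (X.cl b)).1 := congrArg Subtype.val h2
  have h4 : X.c ((X.zz b)⁻¹ * z) (X.s (X.cl b)).1 = 0 := by
    refine (X.s (X.cl b)).2 _ (mul_mem (inv_mem (X.zz_mem b)) hz) ?_
    have : ((X.zz b)⁻¹ * z) • X.s (X.cl b) = X.s (X.cl b) := by
      rw [mul_smul, e, h2]
    exact congrArg Subtype.val this
  rw [h1, h3, h4, add_zero]
  rfl

theorem q_s (o : X.Qt) : X.q (X.s o) = 0 := by
  rw [← X.q_eq (X.s o) 1 (one_mem _) (by rw [one_smul, X.cl_s]), coc_one X.hc]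

theorem q_smul (z : H) (hz : z ∈ Subgroup.zpowers X.u) (b : X.Bt) :
    X.q (z • b) = X.c z (z • b).1 + X.q b := by
  have hcl : X.cl (z • b) = X.cl b := (X.cl_eq.2 ⟨z, hz, rfl⟩).symm
  rw [← X.q_eq (z • b) (z * X.zz b) (mul_mem hz (X.zz_mem b)) (by
    rw [hcl, mul_smul, X.zz_smul]), X.hc]
  congr 1
  show X.c (X.zz b) (z⁻¹ • z • b.1) = X.c (X.zz b) b.1
  rw [inv_smul_smul]

/-- the new cocycle -/
noncomputable def c' (h : H) (o : X.Qt) : ZMod p :=
  X.c h (X.s o).1 + X.q (h⁻¹ • X.s o) - X.q (X.s o)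

theorem c'_cl (h : H) (b : X.Bt) :
    X.c' h (X.cl b) = X.c h b.1 + X.q (h⁻¹ • b) - X.q b := by
  have key : ∀ (z : H) (b : X.Bt), z ∈ Subgroup.zpowers X.u →
      X.c h (z • b).1 + X.q (h⁻¹ • z • b) - X.q (z • b) =
        X.c h b.1 + X.q (h⁻¹ • b) - X.q b := by
    intro z b hz
    have e1 : h⁻¹ • z • b = z • h⁻¹ • b := Subtype.ext (X.smul_comm' hz h⁻¹ b.1)
    rw [e1, X.q_smul z hz, X.q_smul z hz]
    have h1 : X.c (h * z) (z • b).1 = X.c h (z • b).1 + X.c z (h⁻¹ • (z • b).1) := X.hc _ _ _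
    have h2 : X.c (z * h) (z • b).1 = X.c z (z • b).1 + X.c h (z⁻¹ • (z • b).1) := X.hc _ _ _
    rw [X.central hz h] at h1
    have e2 : z⁻¹ • (z • b).1 = b.1 := inv_smul_smul z b.1
    have e3 : h⁻¹ • (z • b).1 = (z • h⁻¹ • b).1 := congrArg Subtype.val e1
    rw [e2] at h2
    rw [e3] at h1
    rw [h1] at h2
    linear_combination h2
  have h := key (X.zz b) (X.s (X.cl b)) (X.zz_mem b)
  rw [X.zz_smul] at h
  exact h.symm

theorem hc' : Coc X.c' := by
  intro d d' o
  induction o using Quotient.inductionOn with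
  | h b =>
    show X.c' (d * d') (X.cl b) = X.c' d (X.cl b) + X.c' d' (X.cl (d⁻¹ • b))
    rw [X.c'_cl, X.c'_cl, X.c'_cl, X.hc, mul_inv_rev, mul_smul]
    show X.c d b.1 + X.c d' (d⁻¹ • b.1) + X.q (d'⁻¹ • d⁻¹ • b) - X.q b =
      X.c d b.1 + X.q (d⁻¹ • b) - X.q b +
        (X.c d' (d⁻¹ • b.1) + X.q (d'⁻¹ • d⁻¹ • b) - X.q (d⁻¹ • b))
    ring

/-- the length of an orbit -/
noncomputable def n (o : X.Qt) : ℕ := Nat.card {b : X.Bt // X.cl b = o}

theorem n_smul (h : H) (o : X.Qt) : X.n (h • o) = X.n o := by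
  refine Nat.card_congr ⟨fun b => ⟨h⁻¹ • b.1, ?_⟩, fun b => ⟨h • b.1, ?_⟩, ?_, ?_⟩
  · rw [← X.smul_cl, b.2, inv_smul_smul]
  · rw [← X.smul_cl, b.2]
  · intro b
    exact Subtype.ext (smul_inv_smul h b.1)
  · intro b
    exact Subtype.ext (inv_smul_smul h b.1)

theorem n_pow [Finite A] [Finite H] (hp : p.Prime) (hH : IsPGroup p H) (o : X.Qt) :
    ∃ k, X.n o = p ^ k := by
  haveI : Fact p.Prime := ⟨hp⟩
  have hZ : IsPGroup p (Subgroup.zpowers X.u) := hH.to_subgroup _
  obtain ⟨k, hk⟩ := hZ.card_orbit (X.s o)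
  refine ⟨k, ?_⟩
  rw [← hk]
  unfold n
  refine Nat.card_congr (Equiv.subtypeEquivRight fun b => ?_)
  rw [MulAction.mem_orbit_iff]
  constructor
  · intro hb
    rw [← X.cl_s o, eq_comm, X.cl_eq] at hb
    obtain ⟨z, hz, e⟩ := hb
    exact ⟨⟨z, hz⟩, e⟩
  · rintro ⟨⟨z, hz⟩, e⟩
    rw [← X.cl_s o, eq_comm, X.cl_eq]
    exact ⟨z, hz, e⟩

end Ctx

/-! ### the scalings -/

section Scal

variable (T : Dat p) (hT : Sc T)

open Classical in
/-- the scaling by `n⁻¹` -/
noncomputable def sc (n : ℕ) : T.K →+ T.K :=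
  if h : ((n : ZMod T.l))⁻¹ ≠ 0 then (hT _ h).choose else 0

variable {T} in
theorem sc_w (n : ℕ) (h : (n : ZMod T.l) ≠ 0) (x y : T.K) :
    T.w (sc T hT n x) (sc T hT n y) = ((n : ZMod T.l))⁻¹ * T.w x y := by
  have h' : ((n : ZMod T.l))⁻¹ ≠ 0 := inv_ne_zero h
  unfold sc
  rw [dif_pos h']
  exact (hT _ h').choose_spec.1 x y

variable {T} in
theorem sc_t (n : ℕ) (j : ZMod p) (x : T.K) :
    sc T hT n (T.t j x) = T.t j (sc T hT n x) := by
  unfold sc
  split_ifs with h'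
  · exact (hT _ h').choose_spec.2 j x
  · show (0 : T.K) = T.t j 0
    rw [map_zero]

variable {T} in
theorem sc_inj (n : ℕ) (h : (n : ZMod T.l) ≠ 0) : Function.Injective (sc T hT n) := by
  rw [injective_iff_map_eq_zero]
  intro x hx
  by_contra hx0
  obtain ⟨y, hy⟩ := T.nondeg x hx0
  have h1 := sc_w hT n h x y
  rw [hx, map_zero] at h1
  have h2 : ((n : ZMod T.l))⁻¹ * T.w x y = 0 := by
    rw [← h1]
    rfl
  rcases mul_eq_zero.1 h2 with h3 | h3
  · exact inv_ne_zero h h3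
  · exact hy h3

end Scal

theorem t_inj (T : Dat p) (j : ZMod p) : Function.Injective (T.t j) := by
  intro x y h
  have h1 := congrArg (T.t (-j)) h
  rwa [← T.t_add, ← T.t_add, neg_add_cancel, T.t_zero, T.t_zero] at h1

/-! ### the map -/

section Map

variable (T : Dat p) (hT : Sc T) (X : Ctx p A H)

open Classical in
/-- the map on the vectors -/
noncomputable def Ph (v : X.Qt → T.K) : A → T.K := fun a =>
  if h : X.Good a then T.t (X.q ⟨a, h⟩) (sc T hT (X.n (X.cl ⟨a, h⟩)) (v (X.cl ⟨a, h⟩))) else 0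

theorem Ph_good (v : X.Qt → T.K) (b : X.Bt) :
    Ph T hT X v b.1 = T.t (X.q b) (sc T hT (X.n (X.cl b)) (v (X.cl b))) := by
  unfold Ph
  rw [dif_pos b.2]
  rfl

theorem Ph_bad (v : X.Qt → T.K) (a : A) (h : ¬ X.Good a) : Ph T hT X v a = 0 := by
  unfold Ph
  rw [dif_neg h]

theorem Ph_add (v w : X.Qt → T.K) : Ph T hT X (v + w) = Ph T hT X v + Ph T hT X w := by
  funext a
  by_cases h : X.Good a
  · let b : X.Bt := ⟨a, h⟩
    show Ph T hT X (v + w) b.1 = Ph T hT X v b.1 + Ph T hT X w b.1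
    rw [Ph_good, Ph_good, Ph_good, Pi.add_apply, map_add, map_add]
  · rw [Pi.add_apply, Ph_bad T hT X _ a h, Ph_bad T hT X _ a h, Ph_bad T hT X _ a h, add_zero]

variable [Fintype A] [Finite H]

theorem n_ne (hp : p.Prime) (hH : IsPGroup p H) (o : X.Qt) : ((X.n o : ℕ) : ZMod T.l) ≠ 0 := by
  obtain ⟨k, hk⟩ := X.n_pow hp hH o
  rw [hk]
  intro h
  rw [ZMod.natCast_eq_zero_iff] at h
  have h1 := (Nat.Prime.dvd_of_dvd_pow T.prime h)
  exact T.ne ((Nat.prime_dvd_prime_iff_eq T.prime hp).1 h1)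

theorem Ph_om [Fintype X.Qt] (hp : p.Prime) (hH : IsPGroup p H) (v w : X.Qt → T.K) :
    Om (Ph T hT X v) (Ph T hT X w) = Om v w := by
  classical
  unfold Om
  letI : Fintype X.Bt := Fintype.ofFinite _
  have h1 : ∑ a, T.w (Ph T hT X v a) (Ph T hT X w a) =
      ∑ b : X.Bt, T.w (Ph T hT X v b.1) (Ph T hT X w b.1) := by
    refine (Fintype.sum_of_injective (fun b : X.Bt => b.1) (fun a b h => Subtype.ext h) _ _
      (fun a ha => ?_) (fun _ => rfl)).symm
    have : ¬ X.Good a := fun h => ha ⟨⟨a, h⟩, rfl⟩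
    rw [Ph_bad T hT X v a this, map_zero]
    rfl
  rw [h1, ← Fintype.sum_fiberwise (fun b : X.Bt => X.cl b)]
  refine Finset.sum_congr rfl fun o _ => ?_
  have h3 : ∀ b : {b : X.Bt // X.cl b = o},
      T.w (Ph T hT X v b.1.1) (Ph T hT X w b.1.1) =
        ((X.n o : ℕ) : ZMod T.l)⁻¹ * T.w (v o) (w o) := by
    rintro ⟨b, hb⟩
    subst hb
    show T.w (Ph T hT X v b.1) (Ph T hT X w b.1) = _
    rw [Ph_good, Ph_good, T.inv, sc_w hT _ (n_ne T X hp hH _)]
  rw [Finset.sum_congr rfl fun b _ => h3 b, Finset.sum_const, nsmul_eq_mul, ← mul_assoc]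
  have h4 : (Finset.univ : Finset {b : X.Bt // X.cl b = o}).card = X.n o := by
    rw [Finset.card_univ]
    unfold Ctx.n
    rw [Nat.card_eq_fintype_card]
  rw [h4, mul_inv_cancel₀ (n_ne T X hp hH o), one_mul]

theorem Ph_inj (hp : p.Prime) (hH : IsPGroup p H) : Function.Injective (Ph T hT X) := by
  intro v w h
  funext o
  have h1 := congrFun h (X.s o).1
  rw [Ph_good, Ph_good, X.cl_s] at h1
  exact sc_inj hT _ (n_ne T X hp hH o) (t_inj T _ h1)

theorem Ph_fix (v : X.Qt → T.K) (b : A) :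
    T.t (X.c X.u b) (Ph T hT X v (X.u⁻¹ • b)) = Ph T hT X v b := by
  have hu : X.u ∈ Subgroup.zpowers X.u := Subgroup.mem_zpowers _
  by_cases h : X.Good b
  · let b' : X.Bt := ⟨b, h⟩
    have e1 : X.u⁻¹ • b = (X.u⁻¹ • b').1 := rfl
    have e2 : b = b'.1 := rfl
    have hcl : X.cl (X.u⁻¹ • b') = X.cl b' := X.cl_eq.2 ⟨X.u, hu, smul_inv_smul _ _⟩
    have hq := X.q_smul X.u hu (X.u⁻¹ • b')
    rw [smul_inv_smul] at hq
    rw [e1, e2, Ph_good, Ph_good, hcl, ← T.t_add, ← hq]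
  · have h' : ¬ X.Good (X.u⁻¹ • b) := by rwa [X.good_iff]
    rw [Ph_bad T hT X _ _ h, Ph_bad T hT X _ _ h', map_zero]

theorem fix_all (v : A → T.K) (hv : ∀ b, T.t (X.c X.u b) (v (X.u⁻¹ • b)) = v b) :
    ∀ z ∈ Subgroup.zpowers X.u, ∀ b, T.t (X.c z b) (v (z⁻¹ • b)) = v b := by
  classical
  letI : DecidableEq A := Classical.decEq _
  have hm : (mono T X.c X.hc).m X.u v = v := funext hv
  have hS : ∀ z ∈ Subgroup.zpowers X.u, (mono T X.c X.hc).m z v = v := by
    intro z hz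
    refine Subgroup.closure_induction (p := fun z _ => (mono T X.c X.hc).m z v = v) ?_ ?_ ?_ ?_
      (by rwa [← Subgroup.zpowers_eq_closure] : z ∈ Subgroup.closure {X.u})
    · intro x hx
      rw [Set.mem_singleton_iff.1 hx]
      exact hm
    · exact (mono T X.c X.hc).one v
    · intro x y _ _ hx hy
      rw [(mono T X.c X.hc).mul, hy, hx]
    · intro x _ hx
      conv_lhs => rw [← hx]
      exact (mono T X.c X.hc).inv_left x v
  intro z hz b
  exact congrFun (hS z hz) b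

theorem Ph_surj (hp : p.Prime) (hH : IsPGroup p H) (v : A → T.K)
    (hv : ∀ b, T.t (X.c X.u b) (v (X.u⁻¹ • b)) = v b) : ∃ v', Ph T hT X v' = v := by
  have hall := fix_all T X v hv
  have hbij : ∀ o : X.Qt, Function.Surjective (sc T hT (X.n o)) := fun o =>
    Finite.surjective_of_injective (sc_inj hT _ (n_ne T X hp hH o))
  choose v' hv' using fun o : X.Qt => hbij o (v (X.s o).1)
  refine ⟨v', ?_⟩
  funext b
  by_cases h : X.Good b
  · let b' : X.Bt := ⟨b, h⟩
    have e2 : b = b'.1 := rfl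
    have h1 := hall (X.zz b') (X.zz_mem b') b
    have h2 : (X.zz b')⁻¹ • b = (X.s (X.cl b')).1 := by
      have : (X.zz b')⁻¹ • b' = X.s (X.cl b') := by
        rw [inv_smul_eq_iff]
        exact (X.zz_smul b').symm
      exact congrArg Subtype.val this
    rw [h2] at h1
    rw [← h1, e2, Ph_good, hv']
    rfl
  · rw [Ph_bad T hT X _ _ h]
    unfold Ctx.Good at h
    push Not at h
    obtain ⟨z, hz, hzb, hne⟩ := h
    have h1 := hall z hz b
    have h2 : z⁻¹ • b = b := by rw [inv_smul_eq_iff, hzb]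
    rw [h2] at h1
    exact (T.inj _ hne _ h1).symm

theorem Ph_eq (h : H) (v : X.Qt → T.K) (b : A) :
    Ph T hT X (fun o => T.t (X.c' h o) (v (h⁻¹ • o))) b =
      T.t (X.c h b) (Ph T hT X v (h⁻¹ • b)) := by
  by_cases hb : X.Good b
  · let b' : X.Bt := ⟨b, hb⟩
    have e1 : h⁻¹ • b = (h⁻¹ • b').1 := rfl
    have e2 : b = b'.1 := rfl
    rw [e1, e2, Ph_good, Ph_good, sc_t hT, ← T.t_add, ← T.t_add, ← X.smul_cl, X.n_smul, X.c'_cl]
    congr 2
    ring
  · have h' : ¬ X.Good (h⁻¹ • b) := by rwa [X.good_iff]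
    rw [Ph_bad T hT X _ _ hb, Ph_bad T hT X _ _ h', map_zero]

end Map

theorem t : Pool.Agent.Helper47.ER.S_RED := by
  intro p hp T hT A _ _ H _ _ hH _ c hc u hu
  let X : Ctx p A H := ⟨c, hc, u, hu⟩
  letI : Fintype X.Qt := Fintype.ofFinite _
  letI : DecidableEq X.Qt := Classical.decEq _
  let Ψ : Hs T X.Qt →* Hs T A :=
    { toFun := fun g => ⟨Ph T hT X g.v, g.z⟩
      map_one' := by
        have h0 : Ph T hT X 0 = 0 := by
          have := Ph_add T hT X 0 0
          rw [add_zero] at this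
          exact left_eq_add.1 this
        show (⟨Ph T hT X 0, 0⟩ : Hs T A) = ⟨0, 0⟩
        rw [h0]
      map_mul' := by
        intro g h
        show (⟨Ph T hT X (g.v + h.v), g.z + h.z + Om g.v h.v⟩ : Hs T A) =
          ⟨Ph T hT X g.v + Ph T hT X h.v, g.z + h.z + Om (Ph T hT X g.v) (Ph T hT X h.v)⟩
        rw [Ph_add, Ph_om T hT X hp.out hH] }
  have h0 : Ph T hT X 0 = 0 := by
    have := Ph_add T hT X 0 0
    rw [add_zero] at this
    exact left_eq_add.1 this
  refine ⟨X.Qt, inferInstance, inferInstance, inferInstance, X.c', X.hc', Ψ, ?_, ?_, ?_, ?_, ?_⟩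
  · intro g h e
    have e1 : (Ψ g).v = (Ψ h).v := congrArg (fun x : Hs T A => x.v) e
    have e2 : (Ψ g).z = (Ψ h).z := congrArg (fun x : Hs T A => x.z) e
    exact Hs.ext (Ph_inj T hT X hp.out hH e1) e2
  · intro g
    rfl
  · intro z
    show (⟨Ph T hT X 0, z⟩ : Hs T A) = ⟨0, z⟩
    rw [h0]
  · intro g
    constructor
    · intro h
      have h1 : (mono T c hc).m u g.v = g.v := congrArg Hs.v h
      obtain ⟨v', hv'⟩ := Ph_surj T hT X hp.out hH g.v (fun b => congrFun h1 b)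
      refine ⟨⟨v', g.z⟩, ?_⟩
      show (⟨Ph T hT X v', g.z⟩ : Hs T A) = g
      rw [hv']
    · rintro ⟨g', rfl⟩
      show (⟨(mono T c hc).m u (Ph T hT X g'.v), g'.z⟩ : Hs T A) = ⟨Ph T hT X g'.v, g'.z⟩
      congr 1
      funext b
      exact Ph_fix T hT X g'.v b
  · intro h g
    show (⟨Ph T hT X ((mono T X.c' X.hc').m h g.v), g.z⟩ : Hs T A) =
      ⟨(mono T c hc).m h (Ph T hT X g.v), g.z⟩
    congr 1
    funext b
    exact Ph_eq T hT X h g.v b

end Pool.Agent.Helper26.ER.RED
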